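import Mathlib

/-!
# Recognition of CIS graphs: the gadget graph

Literals `l i s` (`i < n`) and, for each clause `j < m` and each literal `(s, i)` that is not in
clause `j`, a vertex `p j i s`. Two literals are adjacent if they belong to different variables; the
vertices `p j i s`, `p j i' s'` are adjacent if `i ≠ i'`; the literal `l i s` is adjacent to
`p j i' s'` if `(s, i)` is not in clause `j` and is not the negation of `(s', i')`.
-/

set_option autoImplicit false

namespace Pool.Agent.TH660.CI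

/-- the vertices -/
inductive Vx : Type
  | l (i : ℕ) (s : Bool)
  | p (j i : ℕ) (s : Bool)
deriving DecidableEq

open Vx

/-- adjacency in one direction; `C j s i` means that the literal `(s, i)` is in clause `j` -/
def Adj1 (C : ℕ → Bool → ℕ → Prop) : Vx → Vx → Prop
  | l i _, l i' _ => i ≠ i'
  | p j i _, p j' i' _ => j = j' ∧ i ≠ i'
  | l i s, p j i' s' => ¬ C j s i ∧ (i = i' → s = s')
  | p _ _ _, l _ _ => False

/-- adjacency -/
def Adj (C : ℕ → Bool → ℕ → Prop) (u v : Vx) : Prop := Adj1 C u v ∨ Adj1 C v u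

/-- the vertices of the graph -/
def val (n m : ℕ) (C : ℕ → Bool → ℕ → Prop) : Vx → Prop
  | l i _ => i < n
  | p j i s => j < m ∧ i < n ∧ ¬ C j s i

variable {C : ℕ → Bool → ℕ → Prop} {n m : ℕ}

theorem Adj.symm {u v : Vx} (h : Adj C u v) : Adj C v u := Or.symm h

theorem adj_ll {i i' : ℕ} {s s' : Bool} : Adj C (l i s) (l i' s') ↔ i ≠ i' := by
  simp only [Adj, Adj1]
  constructor
  · rintro (h | h)
    · exact h
    · exact h.symm
  · exact Or.inl

theorem adj_pp {j j' i i' : ℕ} {s s' : Bool} : Adj C (p j i s) (p j' i' s') ↔ j = j' ∧ i ≠ i' := by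
  simp only [Adj, Adj1]
  constructor
  · rintro (h | h)
    · exact h
    · exact ⟨h.1.symm, h.2.symm⟩
  · exact Or.inl

theorem adj_lp {j i i' : ℕ} {s s' : Bool} :
    Adj C (l i s) (p j i' s') ↔ ¬ C j s i ∧ (i = i' → s = s') := by
  simp only [Adj, Adj1, or_false]

theorem adj_pl {j i i' : ℕ} {s s' : Bool} :
    Adj C (p j i' s') (l i s) ↔ ¬ C j s i ∧ (i = i' → s = s') := by
  simp only [Adj, Adj1, false_or]

/-- **If the clauses cannot be satisfied then no maximal clique is dominated by a stable set which is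
disjoint from it.** -/
theorem strong_of_unsat (hn : 0 < n)
    (hun : ∀ τ : ℕ → Bool, ∃ j < m, ∀ i < n, ¬ C j (τ i) i)
    (K S : Set Vx) (hKval : ∀ u ∈ K, val n m C u) (hKne : K.Nonempty)
    (hKcl : ∀ u ∈ K, ∀ v ∈ K, u ≠ v → Adj C u v)
    (hKmax : ∀ w, val n m C w → (∀ u ∈ K, u ≠ w → Adj C u w) → w ∈ K)
    (hSval : ∀ u ∈ S, val n m C u)
    (hSst : ∀ u ∈ S, ∀ v ∈ S, u ≠ v → ¬ Adj C u v)
    (hdis : ∀ u ∈ K, u ∉ S) (hdom : ∀ u ∈ K, ∃ w ∈ S, Adj C u w) : False := by
  classical
  have huniql : ∀ i s s', l i s ∈ K → l i s' ∈ K → s = s' := by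
    intro i s s' h h'
    by_contra hne
    exact adj_ll.1 (hKcl _ h _ h' (by simp [hne])) rfl
  by_cases hp : ∃ j i s, p j i s ∈ K
  · obtain ⟨j, i1, s1, hp⟩ := hp
    have hjm : j < m := (hKval _ hp).1
    have hpj : ∀ j' i s, p j' i s ∈ K → j' = j := by
      intro j' i s h
      by_cases he : p j' i s = p j i1 s1
      · injection he
      · exact (adj_pp.1 (hKcl _ h _ hp he)).1
    have huniqp : ∀ i s s', p j i s ∈ K → p j i s' ∈ K → s = s' := by
      intro i s s' h h'
      by_contra hne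
      exact (adj_pp.1 (hKcl _ h _ h' (by simp [hne]))).2 rfl
    have hl : ∀ i s, l i s ∈ K → ¬ C j s i := fun i s h =>
      (adj_lp.1 (hKcl _ h _ hp (by simp))).1
    -- adding the partner of a vertex
    have hA : ∀ i < n, (∃ s, ¬ C j s i) → ∃ s, p j i s ∈ K := by
      intro i hi hs
      by_contra hno
      push Not at hno
      have key : ∀ s, ¬ C j s i → (∀ s', l i s' ∈ K → s' = s) → False := by
        intro s hCs hls
        refine hno s (hKmax _ ⟨hjm, hi, hCs⟩ fun u hu _ => ?_)
        cases u with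
        | l i' s' =>
          rw [adj_lp]
          refine ⟨hl _ _ hu, ?_⟩
          rintro rfl
          exact hls _ hu
        | p j' i' s' =>
          have := hpj _ _ _ hu
          subst this
          rw [adj_pp]
          refine ⟨rfl, ?_⟩
          rintro rfl
          exact hno _ hu
      by_cases hex : ∃ s, l i s ∈ K
      · obtain ⟨s, hs'⟩ := hex
        exact key s (hl _ _ hs') fun s' h' => huniql _ _ _ h' hs'
      · push Not at hex
        obtain ⟨s, hs⟩ := hs
        exact key s hs fun s' h' => absurd h' (hex s')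
    have hB : ∀ i s, p j i s ∈ K → l i s ∈ K := by
      intro i s h
      have hv := hKval _ h
      refine hKmax _ hv.2.1 fun u hu hne => ?_
      cases u with
      | l i' s' =>
        rw [adj_ll]
        rintro rfl
        have h1 := (adj_lp.1 (hKcl _ hu _ h (by simp))).2 rfl
        exact hne (by rw [h1])
      | p j' i' s' =>
        have := hpj _ _ _ hu
        subst this
        rw [adj_pl]
        refine ⟨hv.2.2, ?_⟩
        rintro rfl
        exact huniqp _ _ _ h hu
    -- a literal in `S` whose variable has a vertex `p j i s` in `K`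
    have hC : ∀ i s s', p j i s ∈ K → l i s' ∈ S → s' ≠ s := by
      rintro i s s' h h' rfl
      exact hdis _ (hB _ _ h) h'
    by_cases hSp : ∃ i' s', p j i' s' ∈ S
    · obtain ⟨i', s', hS⟩ := hSp
      have hv := hSval _ hS
      obtain ⟨s, hs⟩ := hA i' hv.2.1 ⟨s', hv.2.2⟩
      obtain ⟨w, hw, hadj⟩ := hdom _ hs
      cases w with
      | l i2 s2 =>
        have h1 := adj_pl.1 hadj
        have h2 := hSst _ hw _ hS (by simp)
        rw [adj_lp] at h2
        by_cases he : i2 = i'
        · subst he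
          exact hC _ _ _ hs hw (h1.2 rfl)
        · exact h2 ⟨h1.1, fun h => absurd h he⟩
      | p j2 i2 s2 =>
        have h1 := adj_pp.1 hadj
        refine hSst _ hw _ hS ?_ (adj_pp.2 ⟨h1.1.symm, h1.2.symm⟩)
        intro he
        injection he with _ he _
        exact h1.2 he.symm
    · push Not at hSp
      obtain ⟨w, hw, hadj⟩ := hdom _ hp
      cases w with
      | l i2 s2 =>
        have h1 := adj_pl.1 hadj
        obtain ⟨s, hs⟩ := hA i2 (hSval _ hw) ⟨s2, h1.1⟩
        obtain ⟨w', hw', hadj'⟩ := hdom _ hs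
        cases w' with
        | l i3 s3 =>
          have h3 := adj_pl.1 hadj'
          by_cases he : i3 = i2
          · subst he
            exact hC _ _ _ hs hw' (h3.2 rfl)
          · refine hSst _ hw' _ hw ?_ (adj_ll.2 he)
            intro h
            injection h with h _
            exact he h
        | p j3 i3 s3 =>
          have h3 := adj_pp.1 hadj'
          have := h3.1
          subst this
          exact hSp _ _ hw'
      | p j2 i2 s2 =>
        have h1 := (adj_pp.1 hadj).1
        subst h1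
        exact hSp _ _ hw
  · push Not at hp
    have hex : ∀ i, ∃ s, i < n → l i s ∈ K := by
      intro i
      by_cases hi : i < n
      · by_contra hno
        push Not at hno
        refine (hno true).2 (hKmax _ hi fun u hu _ => ?_)
        cases u with
        | l i' s' =>
          rw [adj_ll]
          rintro rfl
          exact (hno s').2 hu
        | p j' i' s' => exact absurd hu (hp _ _ _)
      · exact ⟨true, fun h => absurd h hi⟩
    choose τ hτ using hex
    obtain ⟨j, hj, hjC⟩ := hun τ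
    refine hp j 0 (τ 0) (hKmax _ ⟨hj, hn, hjC 0 hn⟩ fun u hu _ => ?_)
    cases u with
    | l i' s' =>
      have hi' : i' < n := hKval _ hu
      have hs' : s' = τ i' := huniql _ _ _ hu (hτ i' hi')
      subst hs'
      rw [adj_lp]
      refine ⟨hjC i' hi', ?_⟩
      rintro rfl
      rfl
    | p j' i' s' => exact absurd hu (hp _ _ _)

/-- **If the clauses can be satisfied** and two of the clauses are unit clauses `{x_a}`, `{x_b}`, then
some maximal clique is dominated by a disjoint stable set. -/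
theorem not_strong_of_sat (τ : ℕ → Bool) (hτ : ∀ j < m, ∃ i < n, C j (τ i) i)
    (a b ja jb : ℕ) (hab : a ≠ b) (han : a < n) (hbn : b < n) (hja : ja < m) (hjb : jb < m)
    (hCa : ∀ s i, C ja s i ↔ s = true ∧ i = a) (hCb : ∀ s i, C jb s i ↔ s = true ∧ i = b) :
    ∃ K S : Set Vx, (∀ u ∈ K, val n m C u) ∧ (∀ u ∈ K, ∀ v ∈ K, u ≠ v → Adj C u v) ∧
      (∀ w, val n m C w → (∀ u ∈ K, u ≠ w → Adj C u w) → w ∈ K) ∧
      (∀ u ∈ S, val n m C u) ∧ (∀ u ∈ S, ∀ v ∈ S, u ≠ v → ¬ Adj C u v) ∧
      (∀ u ∈ K, ∃ w ∈ S, Adj C u w) := by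
  refine ⟨{u | ∃ i < n, u = l i (τ i)}, {u | (∃ s, u = p ja b s) ∨ ∃ s, u = p jb a s},
    ?_, ?_, ?_, ?_, ?_, ?_⟩
  · rintro u ⟨i, hi, rfl⟩
    exact hi
  · rintro u ⟨i, hi, rfl⟩ v ⟨i', hi', rfl⟩ hne
    rw [adj_ll]
    rintro rfl
    exact hne rfl
  · intro w hw h
    cases w with
    | l i s =>
      by_cases hs : s = τ i
      · subst hs
        exact ⟨i, hw, rfl⟩
      · exfalso
        refine adj_ll.1 (h (l i (τ i)) ⟨i, hw, rfl⟩ ?_) rfl
        intro he
        injection he with _ he
        exact hs he.symm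
    | p j i s =>
      exfalso
      obtain ⟨i', hi', hC⟩ := hτ j hw.1
      exact (adj_lp.1 (h (l i' (τ i')) ⟨i', hi', rfl⟩ (by simp))).1 hC
  · rintro u (⟨s, rfl⟩ | ⟨s, rfl⟩)
    · exact ⟨hja, hbn, fun h => hab ((hCa _ _).1 h).2.symm⟩
    · exact ⟨hjb, han, fun h => hab ((hCb _ _).1 h).2⟩
  · have hne : ja ≠ jb := by
      rintro rfl
      have h1 := (hCa true a).2 ⟨rfl, rfl⟩
      exact hab ((hCb _ _).1 h1).2
    rintro u (⟨s, rfl⟩ | ⟨s, rfl⟩) v (⟨s', rfl⟩ | ⟨s', rfl⟩) _ hadj
    · exact (adj_pp.1 hadj).2 rfl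
    · exact hne (adj_pp.1 hadj).1
    · exact hne (adj_pp.1 hadj).1.symm
    · exact (adj_pp.1 hadj).2 rfl
  · rintro u ⟨i, hi, rfl⟩
    by_cases h : τ i = true ∧ i = a
    · refine ⟨p jb a true, Or.inr ⟨true, rfl⟩, adj_lp.2 ⟨?_, fun _ => h.1⟩⟩
      rw [hCb]
      rintro ⟨_, h'⟩
      exact hab (h.2.symm.trans h')
    · refine ⟨p ja b (τ i), Or.inl ⟨_, rfl⟩, adj_lp.2 ⟨?_, fun _ => rfl⟩⟩
      rw [hCa]
      exact h

end Pool.Agent.TH660.CI
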